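import Mathlib

set_option autoImplicit false

namespace Pool.Agent.Results.MP_29028a_co.DecouplingDependsOnT

open Polynomial

/-- a weighted non-singular small-step model with a starting point -/
structure Model where
  /-- the step set -/
  S : Finset (ℤ × ℤ)
  small : ∀ s ∈ S, s ≠ (0, 0) ∧ |s.1| ≤ 1 ∧ |s.2| ≤ 1
  /-- every line `a x + b y = 0` has a step strictly on each of its sides -/
  nonsing : ∀ a b : ℝ, (a, b) ≠ (0, 0) →
    (∃ s ∈ S, 0 < a * s.1 + b * s.2) ∧ (∃ s ∈ S, a * s.1 + b * s.2 < 0)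
  /-- the weights -/
  w : ℤ × ℤ → ℝ
  wpos : ∀ s ∈ S, 0 < w s
  /-- the starting point `(p, q)` -/
  p : ℕ
  q : ℕ
  hp : 0 < p

/-- the step polynomial `P(x, y)` at complex `x, y` -/
noncomputable def Model.P (M : Model) (x y : ℂ) : ℂ := ∑ s ∈ M.S, (M.w s : ℂ) * x ^ s.1 * y ^ s.2

/-- `P(1, 1)`, the sum of the weights -/
noncomputable def Model.total (M : Model) : ℝ := ∑ s ∈ M.S, M.w s

/-- the kernel curve `E_t = {1 - t P(x, y) = 0}` -/
def Model.curve (M : Model) (t : ℝ) : Set (ℂ × ℂ) :=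
  {z | z.1 ≠ 0 ∧ z.2 ≠ 0 ∧ 1 - (t : ℂ) * M.P z.1 z.2 = 0}

/-- the model decouples at `t`: for some rational functions `R₁ = N₁ / D₁` of `x` and
`R₂ = N₂ / D₂` of `y` the identity `x ^ p * y ^ q = R₁ x + R₂ y` holds at all points of the curve,
except possibly finitely many (the poles) -/
def Model.DecouplesAt (M : Model) (t : ℝ) : Prop :=
  ∃ N₁ D₁ N₂ D₂ : ℂ[X],
    {z ∈ M.curve t | ¬ (D₁.eval z.1 ≠ 0 ∧ D₂.eval z.2 ≠ 0 ∧
      z.1 ^ M.p * z.2 ^ M.q = N₁.eval z.1 / D₁.eval z.1 + N₂.eval z.2 / D₂.eval z.2)}.Finite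

/-- the weights of the example -/
noncomputable def wt (s : ℤ × ℤ) : ℝ :=
  if s = (1, 1) then 4 else if s = (-1, -1) then 48
  else if s = (1, -1) ∨ s = (-1, 1) then 16 else 34

/-- the step set of the example -/
def St : Finset (ℤ × ℤ) := {(1, 1), (1, 0), (0, 1), (1, -1), (-1, 1), (-1, -1)}

theorem sum_St {β : Type*} [AddCommMonoid β] (f : ℤ × ℤ → β) :
    ∑ s ∈ St, f s = f (1, 1) + (f (1, 0) + (f (0, 1) + (f (1, -1) + (f (-1, 1) + f (-1, -1))))) := by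
  unfold St
  rw [Finset.sum_insert (by decide), Finset.sum_insert (by decide), Finset.sum_insert (by decide),
    Finset.sum_insert (by decide), Finset.sum_insert (by decide), Finset.sum_singleton]

theorem nonsing_aux (a b : ℝ) (h : (a, b) ≠ (0, 0)) : ∃ s ∈ St, 0 < a * s.1 + b * s.2 := by
  by_contra hcon
  push Not at hcon
  have h1 := hcon (1, 1) (by decide)
  have h2 := hcon (-1, -1) (by decide)
  have h3 := hcon (1, -1) (by decide)
  have h4 := hcon (-1, 1) (by decide)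
  push_cast at h1 h2 h3 h4
  apply h
  ext
  · show a = 0
    linarith
  · show b = 0
    linarith

/-- the example -/
noncomputable def ex : Model where
  S := St
  small := by decide
  nonsing := by
    intro a b h
    refine ⟨nonsing_aux a b h, ?_⟩
    obtain ⟨s, hs, h'⟩ := nonsing_aux (-a) (-b) (by
      intro h0
      apply h
      have h1 : -a = 0 := congrArg Prod.fst h0
      have h2 : -b = 0 := congrArg Prod.snd h0
      ext
      · show a = 0
        linarith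
      · show b = 0
        linarith)
    exact ⟨s, hs, by linarith⟩
  w := wt
  wpos := by
    intro s _
    unfold wt
    split_ifs <;> norm_num
  p := 1
  q := 1
  hp := by norm_num

theorem wt1 : wt (1, 1) = 4 := by simp [wt]
theorem wt2 : wt (1, 0) = 34 := by simp [wt]
theorem wt3 : wt (0, 1) = 34 := by simp [wt]
theorem wt4 : wt (1, -1) = 16 := by simp [wt]
theorem wt5 : wt (-1, 1) = 16 := by simp [wt]
theorem wt6 : wt (-1, -1) = 48 := by simp [wt]

theorem total_ex : ex.total = 152 := by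
  show ∑ s ∈ St, wt s = 152
  rw [sum_St, wt1, wt2, wt3, wt4, wt5, wt6]
  norm_num

/-- the curve of the example in polynomial form -/
theorem mem_curve (l : ℝ) (hl : l ≠ 0) (x y : ℂ) : (x, y) ∈ ex.curve (1 / l) ↔ x ≠ 0 ∧ y ≠ 0 ∧
    (l : ℂ) * x * y - (4 * x ^ 2 * y ^ 2 + 34 * (x ^ 2 * y + x * y ^ 2) + 16 * (x ^ 2 + y ^ 2) + 48) = 0 := by
  show (x ≠ 0 ∧ y ≠ 0 ∧ 1 - ((1 / l : ℝ) : ℂ) * (∑ s ∈ St, (wt s : ℂ) * x ^ s.1 * y ^ s.2) = 0) ↔ _
  have hl' : (l : ℂ) ≠ 0 := by exact_mod_cast hl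
  refine and_congr_right fun hx => and_congr_right fun hy => ?_
  rw [sum_St, wt1, wt2, wt3, wt4, wt5, wt6]
  simp only [zpow_one, zpow_neg, zpow_zero, mul_one]
  push_cast
  have key : (l : ℂ) * x * y - (4 * x ^ 2 * y ^ 2 + 34 * (x ^ 2 * y + x * y ^ 2) + 16 * (x ^ 2 + y ^ 2) + 48)
    = l * x * y * (1 - 1 / (l : ℂ) * (4 * x * y + (34 * x + (34 * y + (16 * x * y⁻¹ + (16 * x⁻¹ * y + 48 * x⁻¹ * y⁻¹)))))) := by
    field_simp
    ring
  rw [key]
  constructor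
  · intro h; rw [h, mul_zero]
  · intro h
    rcases mul_eq_zero.mp h with h' | h'
    · exact absurd h' (mul_ne_zero (mul_ne_zero hl' hx) hy)
    · exact h'

/-- at `t = 1 / 191` the example decouples:
`x y = - 8 x - 8 y - 26 / (x + 1/2) - 26 / (y + 1/2) + 56` -/
theorem decouples : ex.DecouplesAt (1 / 191) := by
  refine ⟨(-8 * X + 56) * (X + C (1 / 2)) - 26, X + C (1 / 2), (-8 * X) * (X + C (1 / 2)) - 26,
    X + C (1 / 2), ?_⟩
  refine (Set.finite_singleton ((-1 / 2 : ℂ), (-1 / 2 : ℂ))).subset ?_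
  rintro ⟨x, y⟩ ⟨hc, hn⟩
  rw [mem_curve 191 (by norm_num)] at hc
  obtain ⟨hx, hy, hc⟩ := hc
  rw [Set.mem_singleton_iff]
  by_cases hx1 : x = -1 / 2
  · subst hx1
    have : y = -1 / 2 := by
      push_cast at hc
      linear_combination (-1 / 104) * hc
    rw [this]
  · by_cases hy1 : y = -1 / 2
    · subst hy1
      exfalso
      apply hx1
      push_cast at hc
      linear_combination (-1 / 104) * hc
    · exfalso
      apply hn
      have h1 : x + 1 / 2 ≠ 0 := fun h => hx1 (by linear_combination h)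
      have h2 : y + 1 / 2 ≠ 0 := fun h => hy1 (by linear_combination h)
      simp only [eval_add, eval_X, eval_C, eval_sub, eval_mul, eval_neg, eval_ofNat]
      refine ⟨h1, h2, ?_⟩
      show x ^ 1 * y ^ 1 = _
      rw [div_add_div _ _ h1 h2, eq_div_iff (mul_ne_zero h1 h2)]
      push_cast at hc
      linear_combination (-1 / 4) * hc

/-- two real points of the curve at `t = 1 / 867` over each large `x` -/
theorem two_points (x : ℝ) (hx : 100 ≤ x) : ∃ y₁ y₂ : ℝ, y₁ ≠ y₂ ∧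
    867 * x * y₁ - (4 * x ^ 2 * y₁ ^ 2 + 34 * (x ^ 2 * y₁ + x * y₁ ^ 2) + 16 * (x ^ 2 + y₁ ^ 2) + 48) = 0 ∧
    867 * x * y₂ - (4 * x ^ 2 * y₂ ^ 2 + 34 * (x ^ 2 * y₂ + x * y₂ ^ 2) + 16 * (x ^ 2 + y₂ ^ 2) + 48) = 0 := by
  set A : ℝ := 4 * x ^ 2 + 34 * x + 16 with hA
  set B : ℝ := 34 * x ^ 2 - 867 * x with hB
  set C : ℝ := 16 * x ^ 2 + 48 with hC
  have hApos : 0 < A := by positivity
  have hD : 0 < B ^ 2 - 4 * A * C := by
    obtain ⟨z, rfl⟩ : ∃ z, x = 100 + z := ⟨x - 100, by ring⟩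
    have hz : 0 ≤ z := by linarith
    have : B ^ 2 - 4 * A * C = 900 * z ^ 4 + 298868 * z ^ 3 + 36410297 * z ^ 2 + 1916012872 * z + 36366314128 := by
      rw [hA, hB, hC]; ring
    rw [this]
    positivity
  set s := Real.sqrt (B ^ 2 - 4 * A * C) with hs
  have hs2 : s ^ 2 = B ^ 2 - 4 * A * C := Real.sq_sqrt hD.le
  have hspos : 0 < s := Real.sqrt_pos.mpr hD
  have gen : ∀ y, A * y ^ 2 + B * y + C = 0 →
      867 * x * y - (4 * x ^ 2 * y ^ 2 + 34 * (x ^ 2 * y + x * y ^ 2) + 16 * (x ^ 2 + y ^ 2) + 48) = 0 := by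
    intro y h
    linear_combination (-1) * h
  refine ⟨(-B + s) / (2 * A), (-B - s) / (2 * A), ?_, gen _ ?_, gen _ ?_⟩
  · intro h
    rw [div_left_inj' (by positivity)] at h
    linarith
  · field_simp
    linear_combination hs2
  · field_simp
    linear_combination hs2

/-- at `t = 1 / 867` the example does not decouple: the curve contains infinitely many
quadrilaterals `(x, y₁), (x, y₂), (x', y₂), (x', y₁)` -/
theorem not_decouples : ¬ ex.DecouplesAt (1 / 867) := by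
  rintro ⟨N₁, D₁, N₂, D₂, hfin⟩
  set F := {z ∈ ex.curve (1 / 867) | ¬ (D₁.eval z.1 ≠ 0 ∧ D₂.eval z.2 ≠ 0 ∧
      z.1 ^ ex.p * z.2 ^ ex.q = N₁.eval z.1 / D₁.eval z.1 + N₂.eval z.2 / D₂.eval z.2)} with hF
  have hG : (Prod.fst '' F).Finite := hfin.image _
  -- the involution
  let ι : ℝ → ℝ := fun x => (51 - 2 * x) / (2 + 17 * x)
  have hf1 : Function.Injective (fun n : ℕ => (((n : ℝ) : ℂ))) := fun a b h => by
    have h' : ((a : ℝ) : ℂ) = ((b : ℝ) : ℂ) := h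
    exact_mod_cast h'
  have hf2 : Function.Injective (fun n : ℕ => ((ι (n : ℝ) : ℝ) : ℂ)) := fun a b h => by
    have h' : ι (a : ℝ) = ι (b : ℝ) := by
      have : ((ι (a : ℝ) : ℝ) : ℂ) = ((ι (b : ℝ) : ℝ) : ℂ) := h
      exact_mod_cast this
    have ha : (2 + 17 * (a : ℝ)) ≠ 0 := by positivity
    have hb : (2 + 17 * (b : ℝ)) ≠ 0 := by positivity
    have h2 : (51 - 2 * (a : ℝ)) * (2 + 17 * b) = (51 - 2 * (b : ℝ)) * (2 + 17 * a) := by
      have := h'
      simp only [ι] at this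
      rwa [div_eq_div_iff ha hb] at this
    have h3 : (a : ℝ) = b := by linarith
    exact_mod_cast h3
  have hB : ((fun n : ℕ => (((n : ℝ) : ℂ))) ⁻¹' (Prod.fst '' F) ∪
      (fun n : ℕ => ((ι (n : ℝ) : ℝ) : ℂ)) ⁻¹' (Prod.fst '' F) ∪ Set.Iio 100).Finite :=
    ((hG.preimage hf1.injOn).union (hG.preimage hf2.injOn)).union (Set.finite_Iio 100)
  obtain ⟨n, hn⟩ := hB.infinite_compl.nonempty
  simp only [Set.mem_compl_iff, Set.mem_union, not_or, Set.mem_preimage, Set.mem_Iio, not_lt] at hn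
  obtain ⟨⟨hn1, hn2⟩, hn3⟩ := hn
  set x : ℝ := (n : ℝ) with hx
  have hx100 : (100 : ℝ) ≤ x := by rw [hx]; exact_mod_cast hn3
  obtain ⟨y₁, y₂, hne, e1, e2⟩ := two_points x hx100
  have hd : (2 + 17 * x) ≠ 0 := by positivity
  have hx0 : x ≠ 0 := by linarith
  have hy : ∀ y : ℝ, 867 * x * y - (4 * x ^ 2 * y ^ 2 + 34 * (x ^ 2 * y + x * y ^ 2)
      + 16 * (x ^ 2 + y ^ 2) + 48) = 0 → y ≠ 0 := by
    rintro y h rfl
    nlinarith [sq_nonneg x]
  have hιx : ι x ≠ 0 := by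
    have : (51 - 2 * x) ≠ 0 := by intro h; linarith
    exact div_ne_zero this hd
  have hιe : ∀ y : ℝ, 867 * x * y - (4 * x ^ 2 * y ^ 2 + 34 * (x ^ 2 * y + x * y ^ 2)
      + 16 * (x ^ 2 + y ^ 2) + 48) = 0 → 867 * ι x * y - (4 * (ι x) ^ 2 * y ^ 2
      + 34 * ((ι x) ^ 2 * y + ι x * y ^ 2) + 16 * ((ι x) ^ 2 + y ^ 2) + 48) = 0 := by
    intro y h
    have : (867 * ι x * y - (4 * (ι x) ^ 2 * y ^ 2
      + 34 * ((ι x) ^ 2 * y + ι x * y ^ 2) + 16 * ((ι x) ^ 2 + y ^ 2) + 48)) * (2 + 17 * x) ^ 2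
      = 871 * (867 * x * y - (4 * x ^ 2 * y ^ 2 + 34 * (x ^ 2 * y + x * y ^ 2)
      + 16 * (x ^ 2 + y ^ 2) + 48)) := by
      simp only [ι]
      field_simp
      ring
    rw [h, mul_zero] at this
    exact (mul_eq_zero.mp this).resolve_right (pow_ne_zero 2 hd)
  have hmem : ∀ u y : ℝ, u ≠ 0 → y ≠ 0 → 867 * u * y - (4 * u ^ 2 * y ^ 2 + 34 * (u ^ 2 * y + u * y ^ 2)
      + 16 * (u ^ 2 + y ^ 2) + 48) = 0 → ((u : ℂ), (y : ℂ)) ∈ ex.curve (1 / 867) := by
    intro u y hu hy0 h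
    rw [mem_curve 867 (by norm_num)]
    refine ⟨by exact_mod_cast hu, by exact_mod_cast hy0, ?_⟩
    exact_mod_cast h
  have main : ∀ u y : ℝ, (u : ℂ) ∉ Prod.fst '' F → u ≠ 0 → y ≠ 0 →
      867 * u * y - (4 * u ^ 2 * y ^ 2 + 34 * (u ^ 2 * y + u * y ^ 2)
      + 16 * (u ^ 2 + y ^ 2) + 48) = 0 → (u : ℂ) * y = N₁.eval (u : ℂ) / D₁.eval (u : ℂ)
        + N₂.eval (y : ℂ) / D₂.eval (y : ℂ) := by
    intro u y hu hu0 hy0 h
    by_contra hcon
    apply hu
    refine ⟨((u : ℂ), (y : ℂ)), ⟨hmem u y hu0 hy0 h, ?_⟩, rfl⟩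
    rintro ⟨-, -, h3⟩
    apply hcon
    have h4 : (u : ℂ) ^ 1 * (y : ℂ) ^ 1 = N₁.eval (u : ℂ) / D₁.eval (u : ℂ)
        + N₂.eval (y : ℂ) / D₂.eval (y : ℂ) := h3
    rwa [pow_one, pow_one] at h4
  have m1 := main x y₁ hn1 hx0 (hy _ e1) e1
  have m2 := main x y₂ hn1 hx0 (hy _ e2) e2
  have m3 := main (ι x) y₁ hn2 hιx (hy _ e1) (hιe _ e1)
  have m4 := main (ι x) y₂ hn2 hιx (hy _ e2) (hιe _ e2)
  have h0 : ((x : ℂ) - (ι x : ℝ)) * ((y₁ : ℂ) - y₂) = 0 := by
    linear_combination m1 - m2 - m3 + m4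
  rcases mul_eq_zero.mp h0 with h | h
  · have h' : x = ι x := by exact_mod_cast sub_eq_zero.mp h
    simp only [ι] at h'
    rw [eq_div_iff hd] at h'
    nlinarith
  · exact hne (by exact_mod_cast sub_eq_zero.mp h)

/-- **Answer to the question: yes.** There are a non-singular weighted small-step model with a
starting point and two values of `t` in `(0, 1 / P(1, 1))` such that the model decouples at the
first one but not at the second one. -/
theorem result : ∃ M : Model, ∃ t₁ t₂ : ℝ, (0 < t₁ ∧ t₁ < 1 / M.total) ∧ (0 < t₂ ∧ t₂ < 1 / M.total) ∧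
    M.DecouplesAt t₁ ∧ ¬ M.DecouplesAt t₂ := by
  refine ⟨ex, 1 / 191, 1 / 867, ⟨by norm_num, ?_⟩, ⟨by norm_num, ?_⟩, decouples, not_decouples⟩
  · rw [total_ex]; norm_num
  · rw [total_ex]; norm_num

end Pool.Agent.Results.MP_29028a_co.DecouplingDependsOnT
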